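import Mathlib
import Pool.Agent.H72.NL.Main

/-!
# Colouring the n x n grid with no-three-in-line colour classes: the constant is at most 13/14
-/

open Filter Topology

namespace Pool.Agent.Results.MP_1efb31_co.BelowOne

open Pool.Agent.H72.NL (Pt Col N3 bd mem_bd cover_bd exists_prime_short)

/-- The points of the `n × n` grid `{1, …, n}²` in the real plane. -/
def grid (n : ℕ) : Set (ℝ × ℝ) :=
  {P | ∃ a b : ℕ, 1 ≤ a ∧ a ≤ n ∧ 1 ≤ b ∧ b ≤ n ∧ P = ((a : ℝ), (b : ℝ))}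

/-- No three distinct points of `S` lie on a common straight line. -/
def NoThreeInLine (S : Set (ℝ × ℝ)) : Prop :=
  ∀ P ∈ S, ∀ Q ∈ S, ∀ R ∈ S, P ≠ Q → P ≠ R → Q ≠ R → ¬ Collinear ℝ {P, Q, R}

/-- A colouring of the cells of the grid is admissible if each colour class has no three
points in line. -/
def Admissible {n k : ℕ} (f : grid n → Fin k) : Prop :=
  ∀ c : Fin k, NoThreeInLine {P | ∃ h : P ∈ grid n, f ⟨P, h⟩ = c}

/-- The least number of colours of an admissible colouring of the `n × n` grid. -/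
noncomputable def chi (n : ℕ) : ℕ :=
  sInf {k | ∃ f : grid n → Fin k, Admissible f}

lemma cross_of_collinear {P Q R : ℝ × ℝ} (h : Collinear ℝ {P, Q, R}) :
    (Q.1 - P.1) * (R.2 - P.2) = (R.1 - P.1) * (Q.2 - P.2) := by
  rw [collinear_iff_of_mem (p₀ := P) (by simp)] at h
  obtain ⟨v, hv⟩ := h
  obtain ⟨r, hr⟩ := hv Q (by simp)
  obtain ⟨s, hs⟩ := hv R (by simp)
  subst hr hs
  simp only [vadd_eq_add, Prod.fst_add, Prod.snd_add, Prod.smul_fst, Prod.smul_snd, smul_eq_mul]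
  ring

/-- the integer point of `[0, n)²` of a grid point -/
noncomputable def ip (P : ℝ × ℝ) : Pt := (⌊P.1⌋ - 1, ⌊P.2⌋ - 1)

theorem coloring_of_cover {n m r : ℕ} (hn : n ≤ m) {O : Fin r → Finset Pt} (hO : ∀ j, N3 (O j))
    (hc : ∀ P ∈ bd m, ∃ j, P ∈ O j) : ∃ f : grid n → Fin r, Admissible f := by
  have h1 : ∀ P : grid n, ∃ j, ip P.1 ∈ O j := by
    rintro ⟨P, a, b, ha, ha', hb, hb', rfl⟩
    apply hc
    rw [mem_bd]
    simp only [ip, Int.floor_natCast]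
    omega
  choose f hf using h1
  refine ⟨f, ?_⟩
  intro c P hP Q hQ R hR hPQ hPR hQR hcol
  obtain ⟨hP1, hP2⟩ := hP
  obtain ⟨hQ1, hQ2⟩ := hQ
  obtain ⟨hR1, hR2⟩ := hR
  have gP : ip P ∈ O c := by
    have := hf ⟨P, hP1⟩
    rwa [hP2] at this
  have gQ : ip Q ∈ O c := by
    have := hf ⟨Q, hQ1⟩
    rwa [hQ2] at this
  have gR : ip R ∈ O c := by
    have := hf ⟨R, hR1⟩
    rwa [hR2] at this
  obtain ⟨x1, y1, -, -, -, -, rfl⟩ := hP1
  obtain ⟨x2, y2, -, -, -, -, rfl⟩ := hQ1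
  obtain ⟨x3, y3, -, -, -, -, rfl⟩ := hR1
  simp only [ip, Int.floor_natCast] at gP gQ gR
  refine hO c _ gP _ gQ _ gR ?_ ?_ ?_ ?_
  · intro h
    simp only [Prod.mk.injEq, sub_left_inj, Nat.cast_inj] at h
    exact hPQ (by rw [h.1, h.2])
  · intro h
    simp only [Prod.mk.injEq, sub_left_inj, Nat.cast_inj] at h
    exact hPR (by rw [h.1, h.2])
  · intro h
    simp only [Prod.mk.injEq, sub_left_inj, Nat.cast_inj] at h
    exact hQR (by rw [h.1, h.2])
  · have hcr := cross_of_collinear hcol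
    simp only at hcr
    have hz : ((x2 : ℤ) - x1) * ((y3 : ℤ) - y1) = ((x3 : ℤ) - x1) * ((y2 : ℤ) - y1) := by
      exact_mod_cast hcr
    unfold Col
    linear_combination hz

set_option maxRecDepth 4000 in
theorem main (ε : ℝ) (hε : 0 < ε) : ∀ᶠ n : ℕ in atTop, ∃ k : ℕ, (k : ℝ) ≤ (13 / 14 + ε) * n ∧
    ∃ f : grid n → Fin k, Admissible f := by
  -- reduce to small `ε`
  wlog hs : ε ≤ 1 / 10 with H
  · filter_upwards [H (1 / 10) (by norm_num) le_rfl] with n hn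
    obtain ⟨k, hk, hf⟩ := hn
    refine ⟨k, hk.trans ?_, hf⟩
    push Not at hs
    apply mul_le_mul_of_nonneg_right _ (Nat.cast_nonneg _)
    linarith
  set η : ℝ := ε / 1000 with hη
  have hη0 : 0 < η := by positivity
  have hη1 : η ≤ 1 / 10000 := by linarith
  obtain ⟨p0, hp0⟩ := cover_bd η hη0
  have hP := exists_prime_short hη0
  rw [eventually_atTop] at hP
  obtain ⟨N0, hN0⟩ := hP
  obtain ⟨N1, hN1⟩ : ∃ N1 : ℕ, (100 : ℝ) / η ≤ N1 := exists_nat_ge _
  filter_upwards [eventually_ge_atTop (2 * (p0 + 2 * N0 + N1 + 1000))] with n hn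
  obtain ⟨p, hp, hpn, hple⟩ := hN0 ((n + 1) / 2) (by omega)
  have hpbig : p0 + 2 * N0 + N1 + 1000 ≤ p := by omega
  obtain ⟨q, hq, hqn, hqle⟩ := hN0 (6 * p / 7 + 1) (by omega)
  have hpF : Fact p.Prime := ⟨hp⟩
  have hqF : Fact q.Prime := ⟨hq⟩
  have h6 : ((6 * p / 7 + 1 : ℕ) : ℝ) ≤ 6 * p / 7 + 1 := by
    push_cast
    have : ((6 * p / 7 : ℕ) : ℝ) ≤ 6 * p / 7 := by
      have := @Nat.cast_div_le ℝ _ _ _ (6 * p) 7
      push_cast at this
      exact this
    linarith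
  have hpR : (1000 : ℝ) ≤ p := by
    have : 1000 ≤ p := by omega
    exact_mod_cast this
  have hpη : 100 ≤ η * p := by
    have h1 : (N1 : ℝ) ≤ p := by
      have : N1 ≤ p := by omega
      exact_mod_cast this
    have h2 : 100 / η ≤ p := hN1.trans h1
    rwa [div_le_iff₀ hη0, mul_comm] at h2
  have hqR : (q : ℝ) ≤ (1 + η) * (6 * p / 7 + 1) := hqle.trans (by gcongr)
  have hw0 : (0 : ℤ) < 7 * q - 6 * p := by omega
  have hw1 : 100 * (7 * (q : ℤ) - 6 * p) ≤ p := by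
    have : (100 : ℝ) * (7 * q - 6 * p) ≤ p := by nlinarith
    exact_mod_cast this
  obtain ⟨r, O, hr, hO, hc⟩ := hp0 p q (w := 7 * q - 6 * p) (by omega) hw0 hw1 (by ring)
  refine ⟨r, ?_, coloring_of_cover (m := 2 * p) (by omega) hO hc⟩
  have hn2 : (((n + 1) / 2 : ℕ) : ℝ) ≤ (n + 1) / 2 := by
    have := @Nat.cast_div_le ℝ _ _ _ (n + 1) 2
    push_cast at this
    exact this
  have hp2 : (p : ℝ) ≤ (1 + η) * ((n + 1) / 2) := hple.trans (by gcongr)
  have hnp : (p : ℝ) ≤ n := by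
    have : (n : ℝ) ≥ 1000 := by
      have : 1000 ≤ n := by omega
      exact_mod_cast this
    nlinarith
  have hnη : 100 ≤ η * n := hpη.trans (by gcongr)
  have h1 : (r : ℝ) ≤ (1 + η) * (13 * p / 7 + 1) := by nlinarith
  have h2 : (r : ℝ) ≤ (1 + η) * (13 * ((1 + η) * ((n + 1) / 2)) / 7 + 1) := h1.trans (by gcongr)
  refine h2.trans ?_
  have hn0 : (0 : ℝ) ≤ n := Nat.cast_nonneg _
  have h3 : ε = 1000 * η := by rw [hη]; ring
  rw [h3]
  nlinarith [mul_nonneg hη0.le hn0, mul_nonneg (mul_nonneg hη0.le hη0.le) hn0]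

/-- **Upper bound `c ≤ 13/14`.** For every `ε > 0` and all large `n` there is an admissible colouring of the `n × n` grid
with at most `(13/14 + ε) n` colours, and `limsup χ(n)/n ≤ 13/14`. -/
theorem result :
    (∀ ε : ℝ, 0 < ε → ∀ᶠ n : ℕ in atTop, ∃ k : ℕ, (k : ℝ) ≤ (13 / 14 + ε) * n ∧
      ∃ f : grid n → Fin k, Admissible f) ∧
    limsup (fun n : ℕ => (chi n : ℝ) / n) atTop ≤ 13 / 14 := by
  refine ⟨fun ε hε => main ε hε, ?_⟩
  apply le_of_forall_pos_le_add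
  intro ε hε
  apply limsup_le_of_le
  · refine ⟨0, ?_⟩
    intro a ha
    obtain ⟨n, hn⟩ := (eventually_atTop.1 (eventually_map.1 ha))
    exact le_trans (by positivity) (hn n le_rfl)
  · filter_upwards [main ε hε, eventually_gt_atTop 0] with n hn hpos
    obtain ⟨k, hk, hf⟩ := hn
    rw [div_le_iff₀ (by exact_mod_cast hpos)]
    refine le_trans ?_ hk
    exact_mod_cast Nat.sInf_le hf

end Pool.Agent.Results.MP_1efb31_co.BelowOne
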